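import Pool.Agent.Run7.h428.NF.PP
import Pool.Agent.Run7.h238.G15.Gold

/-!
# The L-functions of the twists of `X_0(15)` over a multiquadratic field
-/

set_option autoImplicit false

namespace Run7.h428.NF

open NumberField IsDedekindDomain WeierstrassCurve
open Pool.Agent.H921R2.TatePole Pool.Agent.H82R3.EK
open Pool.Agent.N969.P15 (Cls0 Qc)
open Run7.h555.P15 (WT exists_Ltw)

/-- the Euler factor in the notation of `Run7.h555.P15` -/
theorem eul_neg (n : ℕ) (s : ℂ) (p : ℕ) : eul (-(n : ℤ)) s p = Run7.h555.P15.eul n s p := by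
  unfold eul Run7.h555.P15.eul
  have h : (p : ℤ) ∣ 15 * -(n : ℤ) ↔ p ∣ 15 * n := by
    have e : 15 * -(n : ℤ) = -((15 * n : ℕ) : ℤ) := by push_cast; ring
    rw [e, dvd_neg, Int.natCast_dvd_natCast]
  by_cases hd : p ∣ 15 * n
  · rw [if_pos (h.2 hd), if_pos hd]
  · rw [if_neg (fun h' => hd (h.1 h')), if_neg hd]

/-- the `L`-function over `ℚ` -/
theorem cen {n : ℕ} (hn : Cls0 n) :
    ∃ G : ℂ → ℂ, Differentiable ℂ G ∧
      (∀ z : ℂ, 3 / 2 < z.re →
        HasProd (fun p : Nat.Primes => eul (-(n : ℤ)) z p) (G z)) ∧ (Qc n → G 1 ≠ 0) := by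
  have hc := hn.2
  have h3 : Nat.Coprime n 3 := by
    rw [Nat.coprime_comm, Nat.Prime.coprime_iff_not_dvd Nat.prime_three]
    omega
  have h5 : Nat.Coprime n 5 := by
    rw [Nat.coprime_comm, Nat.Prime.coprime_iff_not_dvd Nat.prime_five]
    omega
  have hco : n.Coprime 15 := Nat.Coprime.mul_right h3 h5
  have h4 : n % 4 = 3 := by omega
  obtain ⟨F, hF, hprod, e, he, hval⟩ := exists_Ltw hn.1 h4 hco
  obtain ⟨y, hy, hodd⟩ := Pool.Agent.Run7.h483.P15.t_PAR Run7.h238.P.pc Run7.h238.P.t_CP3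
    Pool.Agent.Run7.h135.P15.r n hn
  have hd := Pool.Agent.Run7.h135.P15.t_DIAG n hn
  refine ⟨F, hF, fun s hs' => ?_, fun hq h0 => ?_⟩
  · have h := hprod s hs'
    have hinj : Function.Injective (fun p : Nat.Primes => (p : ℕ)) := fun a b h => Subtype.ext h
    rw [← Function.Injective.hasProd_iff hinj] at h
    · refine h.congr_fun ?_
      intro p
      show eul _ _ _ = if (p : ℕ).Prime then _ else 1
      rw [if_pos p.2, eul_neg]
    · intro p hp'
      rw [if_neg]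
      intro h'
      exact hp' ⟨⟨p, h'⟩, rfl⟩
  · have hy0 : y ≠ 0 := by
      rintro rfl
      exact absurd (hodd.2 hq) (by decide)
    rw [h0, zero_mul] at hval
    have h1 : e * (Pool.Agent.Run7.h741.MF.kappa * ((∑ u ∈ Pool.Agent.N969.P15.un n, jacobiSym u n *
            Pool.Agent.N969.P15.Fp u n : ℤ) : ℝ)) = 0 := by exact_mod_cast hval.symm
    have he0 : e ≠ 0 := by rcases he with rfl | rfl <;> norm_num
    have hk := Pool.Agent.Run7.h741.MF.kappa_pos
    have h2 : (∑ u ∈ Pool.Agent.N969.P15.un n, jacobiSym u n *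
            Pool.Agent.N969.P15.Fp u n : ℤ) = 0 := by
      rcases mul_eq_zero.1 h1 with h | h
      · exact absurd h he0
      · rcases mul_eq_zero.1 h with h | h
        · exact absurd h hk.ne'
        · exact_mod_cast h
    rw [h2, mul_zero, hy] at hd
    have h3 : (2 ^ n.primeFactors.card * y) = 0 := by
      have := hd.symm
      exact pow_eq_zero_iff (two_ne_zero) |>.1 this
    rcases mul_eq_zero.1 h3 with h | h
    · exact absurd h (by positivity)
    · exact hy0 h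

/-- the `L`-function of the twist by `-n` of `X_0(15)` over `ℚ`, for the `n` of the class -/
noncomputable def Lq (n : ℕ) : ℂ → ℂ := open Classical in
  if h : Cls0 n then (cen h).choose else 0

theorem Lq_diff {n : ℕ} (hn : Cls0 n) : Differentiable ℂ (Lq n) := by
  unfold Lq
  rw [dif_pos hn]
  exact (cen hn).choose_spec.1

theorem Lq_prod {n : ℕ} (hn : Cls0 n) : ∀ z : ℂ, 3 / 2 < z.re →
    HasProd (fun p : Nat.Primes => eul (-(n : ℤ)) z p) (Lq n z) := by
  unfold Lq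
  rw [dif_pos hn]
  exact (cen hn).choose_spec.2.1

theorem Lq_ne {n : ℕ} (hn : Cls0 n) (hq : Qc n) : Lq n 1 ≠ 0 := by
  unfold Lq
  rw [dif_pos hn]
  exact (cen hn).choose_spec.2.2 hq

section

variable {F : Type} [Field F] [NumberField F] {H : Finset (Finset ℕ)} {r : Finset ℕ → F}

/-- **the L-function over the field** -/
theorem MQ.lseries (hPP : S_PP) (hM15 : S_M15) (hGOOD : S_GOOD) (hADD : S_ADD) (hISO : S_ISO)
    (hMUL : S_MUL) (hCNT : S_CNT) (h : MQ F H r) {n : ℕ} (hn : Squarefree n)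
    (h60 : n % 60 = 23 ∨ n % 60 = 47) {G : Finset ℕ → ℂ → ℂ}
    (g2 : ∀ T ∈ H, ∀ z : ℂ, 3 / 2 < z.re →
      HasProd (fun p : Nat.Primes => eul (-(tn n T : ℤ)) z p) (G T z)) :
    ∀ s : ℂ, 2 < s.re → ∏ T ∈ H, G T s = (EF F (-(n : ℤ))).LSeries s := by
  classical
  intro s hs
  have hs' : 3 / 2 < s.re := by linarith
  have h1 : HasProd (fun q : Nat.Primes => ∏ T ∈ H, eul (-(tn n T : ℤ)) s q)
      (∏ T ∈ H, G T s) := hasProd_prod fun T hT => g2 T hT s hs'
  have h5 : ∀ q : Nat.Primes, ∏ T ∈ H, eul (-(tn n T : ℤ)) s q =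
      ∏ v : {v : HeightOneSpectrum (𝓞 F) // below v = q}, LF (EF F (-(n : ℤ))) s v.1 := by
    intro q
    rw [← hPP hM15 hGOOD hADD hISO hMUL hCNT F H r h n hn h60 s q, finprod_eq_prod_of_fintype]
  simp_rw [h5] at h1
  have h2 := (Pool.Agent.W189.NF.LSeries_hasProd (EF F (-(n : ℤ))) hs).2
  have h3 := (Equiv.sigmaFiberEquiv (below (K := F))).hasProd_iff.2 h2
  have h4 := h3.sigma (g := fun q : Nat.Primes =>
    ∏ v : {v : HeightOneSpectrum (𝓞 F) // below v = q}, LF (EF F (-(n : ℤ))) s v.1)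
    (fun q => hasProd_fintype _)
  exact h1.unique h4

/-- **the L-function over the field, for every `n` of the class** -/
theorem MQ.lser (hPP : S_PP) (hM15 : S_M15) (hGOOD : S_GOOD) (hADD : S_ADD) (hISO : S_ISO)
    (hMUL : S_MUL) (hCNT : S_CNT) (h : MQ F H r) {n : ℕ} (hn : Cls0 n) {s : ℂ} (hs : 2 < s.re) :
    (EF F (-(n : ℤ))).LSeries s = ∏ T ∈ H, Lq (tn n T) s :=
  (h.lseries hPP hM15 hGOOD hADD hISO hMUL hCNT hn.1 hn.2 (G := fun T => Lq (tn n T))
    (fun T hT => Lq_prod ⟨tn_sqf (h.pr T hT), tn_mod hn.1 hn.2 (h.pr T hT) (h.m60 T hT)⟩) s hs).symm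

/-- the entire function of the product form -/
theorem MQ.prod_diff (h : MQ F H r) {n : ℕ} (hn : Cls0 n) :
    Differentiable ℂ fun s => ∏ T ∈ H, Lq (tn n T) s :=
  Differentiable.fun_finsetProd fun T hT =>
    Lq_diff ⟨tn_sqf (h.pr T hT), tn_mod hn.1 hn.2 (h.pr T hT) (h.m60 T hT)⟩

/-- **TOP, the L-function**: entire continuation and nonvanishing at the centre -/
theorem top_L (hPP : S_PP) (hM15 : S_M15) (hGOOD : S_GOOD) (hADD : S_ADD) (hISO : S_ISO)
    (hMUL : S_MUL) (hCNT : S_CNT) (h : MQ F H r) {n : ℕ} (hn : Squarefree n)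
    (h60 : n % 60 = 23 ∨ n % 60 = 47) (hq : ∀ T ∈ H, Qc (tn n T)) :
    ∃ Λ : ℂ → ℂ, Differentiable ℂ Λ ∧
      (∀ s : ℂ, 2 < s.re → Λ s = (EF F (-(n : ℤ))).LSeries s) ∧ Λ 1 ≠ 0 :=
  ⟨fun s => ∏ T ∈ H, Lq (tn n T) s, h.prod_diff ⟨hn, h60⟩,
    fun s hs => (h.lser hPP hM15 hGOOD hADD hISO hMUL hCNT ⟨hn, h60⟩ hs).symm,
    Finset.prod_ne_zero_iff.2 fun T hT =>
      Lq_ne ⟨tn_sqf (h.pr T hT), tn_mod hn h60 (h.pr T hT) (h.m60 T hT)⟩ (hq T hT)⟩

end

end Run7.h428.NF
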